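import Pool.Agent.X23.L3.Stm
import Pool.Agent.H168DD.TB

/-! Part S_TB of project LT (MP_688354_co). -/

set_option autoImplicit false

namespace Pool.Agent.X187.LT

open Pool.Agent.X23.L3 Finset

theorem touch_symm {n : ℕ} {X : Sys n} {i j : Fin n} (h : touch X i j) : touch X j i := by
  obtain ⟨x, h1, h2, h3⟩ := h; exact ⟨x, h1, h3, h2⟩

def Cl {n : ℕ} (X : Sys n) (A : Finset (Fin n)) (O : Finset (Fin n)) : Prop :=
  (∀ x ∈ O, x ∉ A) ∧ ∀ x ∈ O, ∀ y, touch X x y → y ∈ O ∨ y ∈ A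

theorem bound0 (hNP : S_NP) (hPT : S_PT2) {n : ℕ} (X : Sys n) (A : Finset (Fin n))
    (F : Finset (Finset (Fin n))) (hne : ∀ O ∈ F, O.Nonempty)
    (hd : ∀ O ∈ F, ∀ O' ∈ F, O ≠ O' → Disjoint O O') (hc : ∀ O ∈ F, Cl X A O) :
    F.card ≤ 2 * A.card ∨ (A = ∅ ∧ F.card ≤ 1) := by
  classical
  have hF : Fam X A (fun r : {O // O ∈ F} => ((r.1 : Finset (Fin n)) : Set (Fin n))) := by
    refine ⟨fun r => ?_, fun r i hi => ?_, fun r r' i hi hi' => ?_, fun r k l hk hl ht => ?_⟩
    · exact_mod_cast hne r.1 r.2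
    · exact (hc r.1 r.2).1 i (by exact_mod_cast hi)
    · by_contra hrr
      have h1 := hd r.1 r.2 r'.1 r'.2 (fun h => hrr (Subtype.ext h))
      exact Finset.disjoint_left.1 h1 (by exact_mod_cast hi) (by exact_mod_cast hi')
    · rcases (hc r.1 r.2).2 k (by exact_mod_cast hk) l ht with h | h
      · exact_mod_cast h
      · exact absurd h hl
  have hcard : Fintype.card {O // O ∈ F} = F.card := Fintype.card_coe F
  by_cases h : ∃ v : Fin 3 → ℝ, v ≠ 0 ∧ ∀ s ∈ A, X.a s ⬝ᵥ v = 0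
  · obtain ⟨v, hv, hv2⟩ := h
    have h1 := hNP n X A {O // O ∈ F} _ hF v hv hv2
    rw [hcard] at h1
    rcases A.eq_empty_or_nonempty with hA | hA
    · exact Or.inr ⟨hA, h1.2 hA⟩
    · left
      have := hA.card_pos
      omega
  · left
    have h1 := hPT n X A {O // O ∈ F} _ hF (fun v hv => by
      by_contra hv0
      exact h ⟨v, hv0, hv⟩)
    rwa [hcard] at h1

theorem n3 {n : ℕ} (X : Sys n) : 3 ≤ n := by
  by_contra h
  push Not at h
  have hk : LinearMap.ker (Matrix.mulVecLin (Matrix.of X.a)) ≠ ⊥ :=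
    LinearMap.ker_ne_bot_of_finrank_lt (by simpa using h)
  obtain ⟨v, hv, hv0⟩ := Submodule.exists_mem_ne_zero_of_ne_bot hk
  have hv1 : ∀ i, X.a i ⬝ᵥ v = 0 := by
    intro i
    have := congrFun (LinearMap.mem_ker.1 hv) i
    simpa [Matrix.mulVec] using this
  obtain ⟨C, hC⟩ := X.bd
  obtain ⟨k, hk⟩ : ∃ k, v k ≠ 0 := by
    by_contra hh
    push Not at hh
    exact hv0 (funext hh)
  have hpos : 0 < |v k| := abs_pos.2 hk
  set t : ℝ := (C + 1 + |X.o k|) / |v k| with ht
  have hx := hC (X.o + t • v) (fun i => by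
    rw [dotProduct_add, dotProduct_smul, hv1 i, smul_zero, add_zero]
    exact (X.ho i).le) k
  have h0 := hC X.o (fun i => (X.ho i).le) k
  have hC0 : 0 ≤ C := (abs_nonneg _).trans h0
  have ht0 : 0 ≤ t := by positivity
  have e1 : t * |v k| = C + 1 + |X.o k| := by rw [ht]; field_simp
  have e2 : |t * v k| = t * |v k| := by rw [abs_mul, abs_of_nonneg ht0]
  have e3 : |t * v k| ≤ |X.o k + t * v k| + |X.o k| := by
    have := abs_sub (X.o k + t * v k) (X.o k)
    rwa [add_sub_cancel_left] at this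
  simp only [Pi.add_apply, Pi.smul_apply, smul_eq_mul] at hx
  linarith

theorem bound1 {n : ℕ} (A : Finset (Fin n)) (F : Finset (Finset (Fin n)))
    (hne : ∀ O ∈ F, O.Nonempty) (hd : ∀ O ∈ F, ∀ O' ∈ F, O ≠ O' → Disjoint O O')
    (hA : ∀ O ∈ F, ∀ x ∈ O, x ∉ A) : F.card + A.card ≤ n := by
  classical
  have h1 : (F.biUnion id).card = ∑ O ∈ F, O.card :=
    Finset.card_biUnion (fun O hO O' hO' h => hd O hO O' hO' h)
  have h2 : F.card ≤ ∑ O ∈ F, O.card := by
    rw [Finset.card_eq_sum_ones]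
    exact Finset.sum_le_sum fun O hO => (hne O hO).card_pos
  have h3 : Disjoint (F.biUnion id) A := by
    rw [Finset.disjoint_left]
    intro x hx
    obtain ⟨O, hO, hxO⟩ := Finset.mem_biUnion.1 hx
    exact hA O hO x hxO
  have h4 : (F.biUnion id ∪ A).card ≤ n := by
    have := Finset.card_le_univ (F.biUnion id ∪ A)
    simpa using this
  rw [Finset.card_union_of_disjoint h3] at h4
  omega

theorem bound2 (hNP : S_NP) (hPT : S_PT2) {n : ℕ} (X : Sys n) (A : Finset (Fin n))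
    (F : Finset (Finset (Fin n))) (hne : ∀ O ∈ F, O.Nonempty)
    (hd : ∀ O ∈ F, ∀ O' ∈ F, O ≠ O' → Disjoint O O') (hc : ∀ O ∈ F, Cl X A O) :
    F.card ≤ A.card + n / 3 := by
  have h1 := bound0 hNP hPT X A F hne hd hc
  have h2 := bound1 A F hne hd (fun O hO => (hc O hO).1)
  have h3 := n3 X
  rcases h1 with h1 | ⟨h1, h4⟩
  · omega
  · rw [h1, Finset.card_empty]
    omega

theorem parity {n : ℕ} (F : Finset (Finset (Fin n))) (h : ∀ O ∈ F, Odd O.card) :
    (∑ O ∈ F, O.card) % 2 = F.card % 2 := by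
  rw [Finset.sum_nat_mod, Finset.card_eq_sum_ones]
  congr 1
  exact Finset.sum_congr rfl fun O hO => Nat.odd_iff.1 (h O hO)

theorem bound3 (hNP : S_NP) (hPT : S_PT2) {n : ℕ} (X : Sys n) (A : Finset (Fin n))
    (F : Finset (Finset (Fin n))) (hodd : ∀ O ∈ F, Odd O.card)
    (hd : ∀ O ∈ F, ∀ O' ∈ F, O ≠ O' → Disjoint O O') (hc : ∀ O ∈ F, Cl X A O)
    (hpar : ¬ Even (n + n / 3)) : F.card ≤ A.card + (n / 3 - 1) := by
  classical
  have hne : ∀ O ∈ F, O.Nonempty := fun O hO => Finset.card_pos.1 (hodd O hO).pos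
  have h2 := bound2 hNP hPT X A F hne hd hc
  have hn3 := n3 X
  by_contra hcon
  have hcard : F.card = A.card + n / 3 := by omega
  set B := F.biUnion id with hB
  set Rst := (Finset.univ \ A) \ B with hR
  have hBc : B.card = ∑ O ∈ F, O.card :=
    Finset.card_biUnion (fun O hO O' hO' h => hd O hO O' hO' h)
  have hBA : B ⊆ Finset.univ \ A := by
    intro x hx
    obtain ⟨O, hO, hxO⟩ := Finset.mem_biUnion.1 hx
    exact Finset.mem_sdiff.2 ⟨Finset.mem_univ _, (hc O hO).1 x hxO⟩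
  have hRc : Rst.card + B.card + A.card = n := by
    have e1 := Finset.card_sdiff_add_card_eq_card hBA
    have e2 := Finset.card_sdiff_add_card_eq_card (Finset.subset_univ A)
    rw [Finset.card_univ, Fintype.card_fin] at e2
    rw [hR]
    omega
  have hp := parity F hodd
  rw [← hBc, hcard] at hp
  rw [Nat.not_even_iff] at hpar
  have hRodd : Rst.card % 2 = 1 := by omega
  have hRne : Rst.Nonempty := Finset.card_pos.1 (by omega)
  have hRB : ∀ x ∈ Rst, x ∉ A ∧ x ∉ B := by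
    intro x hx
    rw [hR, Finset.mem_sdiff, Finset.mem_sdiff] at hx
    exact ⟨hx.1.2, hx.2⟩
  have hRnot : Rst ∉ F := by
    intro h
    obtain ⟨x, hx⟩ := hRne
    exact (hRB x hx).2 (Finset.mem_biUnion.2 ⟨Rst, h, hx⟩)
  have hdR : ∀ O ∈ F, Disjoint O Rst := by
    intro O hO
    rw [Finset.disjoint_left]
    intro x hx hx2
    exact (hRB x hx2).2 (Finset.mem_biUnion.2 ⟨O, hO, hx⟩)
  have h5 := bound2 hNP hPT X A (insert Rst F) (by
      intro O hO
      rcases Finset.mem_insert.1 hO with rfl | hO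
      · exact hRne
      · exact hne O hO) (by
      intro O hO O' hO' hne'
      rcases Finset.mem_insert.1 hO with rfl | hO
      · rcases Finset.mem_insert.1 hO' with rfl | hO'
        · exact absurd rfl hne'
        · exact (hdR O' hO').symm
      · rcases Finset.mem_insert.1 hO' with rfl | hO'
        · exact hdR O hO
        · exact hd O hO O' hO' hne') (by
      intro O hO
      rcases Finset.mem_insert.1 hO with rfl | hO
      · refine ⟨fun x hx => (hRB x hx).1, fun x hx y ht => ?_⟩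
        by_contra hy
        push Not at hy
        have hyB : y ∈ B := by
          by_contra hyB
          exact hy.1 (Finset.mem_sdiff.2 ⟨Finset.mem_sdiff.2 ⟨Finset.mem_univ _, hy.2⟩, hyB⟩)
        obtain ⟨O, hO, hyO⟩ := Finset.mem_biUnion.1 hyB
        rcases (hc O hO).2 y hyO x (touch_symm ht) with h | h
        · exact (hRB x hx).2 (Finset.mem_biUnion.2 ⟨O, hO, h⟩)
        · exact (hRB x hx).1 h
      · exact hc O hO)
  rw [Finset.card_insert_of_notMem hRnot] at h5
  omega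

/-- the touching graph -/
def TG {n : ℕ} (X : Sys n) : SimpleGraph (Fin n) where
  Adj i j := i ≠ j ∧ touch X i j
  symm := ⟨fun _ _ h => ⟨h.1.symm, touch_symm h.2⟩⟩
  loopless := ⟨fun _ h => h.1 rfl⟩

theorem match_ex (hNP : S_NP) (hPT : S_PT2) {n : ℕ} (X : Sys n) :
    ∃ (U : Finset (Fin n)) (m : Fin n → Fin n), 3 * U.card ≤ n ∧
      ∀ x, x ∉ U → m x ∉ U ∧ m (m x) = x ∧ x ≠ m x ∧ touch X x (m x) := by
  classical
  have conv : ∀ (A : Finset (Fin n)) (F : Finset (Finset (Fin n))),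
      (∀ O ∈ F, O ⊆ Finset.univ \ A) →
      (∀ O ∈ F, ∀ x ∈ O, ∀ y ∈ (Finset.univ : Finset (Fin n)), (TG X).Adj x y → y ∈ O ∨ y ∈ A) →
      ∀ O ∈ F, Cl X A O := by
    intro A F h1 h2 O hO
    refine ⟨fun x hx => (Finset.mem_sdiff.1 (h1 O hO hx)).2, fun x hx y ht => ?_⟩
    by_cases hxy : x = y
    · left; rw [← hxy]; exact hx
    · exact h2 O hO x hx y (Finset.mem_univ _) ⟨hxy, ht⟩
  have main : ∃ l, l ≤ n / 3 ∧ Even ((Finset.univ : Finset (Fin n)).card + l) ∧
      ∀ (A : Finset (Fin n)) (F : Finset (Finset (Fin n))), (∀ O ∈ F, Odd O.card) →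
        (∀ O ∈ F, ∀ O' ∈ F, O ≠ O' → Disjoint O O') → (∀ O ∈ F, Cl X A O) →
        F.card ≤ A.card + l := by
    by_cases hpar : Even (n + n / 3)
    · refine ⟨n / 3, le_rfl, by simpa using hpar, fun A F h1 h2 h3 => ?_⟩
      exact bound2 hNP hPT X A F (fun O hO => Finset.card_pos.1 (h1 O hO).pos) h2 h3
    · have hn3 := n3 X
      refine ⟨n / 3 - 1, Nat.sub_le _ _, ?_, fun A F h1 h2 h3 =>
        bound3 hNP hPT X A F h1 h2 h3 hpar⟩
      rw [Finset.card_univ, Fintype.card_fin, Nat.even_iff]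
      rw [Nat.not_even_iff] at hpar
      omega
  obtain ⟨l, hl, heven, hb⟩ := main
  obtain ⟨U, m, _, hU, hm⟩ := H168DD.tutte_berge (TG X) Finset.univ l heven
    (fun A F _ h1 h2 h3 h4 => hb A F h1 h2 (conv A F h3 h4))
  refine ⟨U, m, by omega, fun x hx => ?_⟩
  have h := hm x (Finset.mem_sdiff.2 ⟨Finset.mem_univ _, hx⟩)
  exact ⟨(Finset.mem_sdiff.1 h.1).2, h.2.1, h.2.2.1, h.2.2.2⟩

theorem t_TB : S_NP → S_PT2 → S_TB := by
  classical
  intro hNP hPT n X
  obtain ⟨U, m, hU, hm⟩ := match_ex hNP hPT X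
  have hch : ∀ x, ∃ c : Fin 3 → ℝ, x ∉ U → ((∀ k, X.a k ⬝ᵥ c ≤ X.b k) ∧
      X.a x ⬝ᵥ c = X.b x ∧ X.a (m x) ⬝ᵥ c = X.b (m x)) := by
    intro x
    by_cases hx : x ∈ U
    · exact ⟨0, fun h => absurd hx h⟩
    · obtain ⟨c, h1, h2, h3⟩ := (hm x hx).2.2.2
      exact ⟨c, fun _ => ⟨h1, h2, h3⟩⟩
  choose c hc using hch
  set W := Finset.univ.filter (fun x : Fin n => x ∉ U ∧ x < m x) with hW
  set W' := Finset.univ.filter (fun x : Fin n => x ∉ U ∧ m x < x) with hW'
  have hWW : W.card = W'.card := by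
    refine Finset.card_bij (fun x _ => m x) ?_ ?_ ?_
    · intro x hx
      obtain ⟨h1, h2⟩ := (Finset.mem_filter.1 hx).2
      have h3 := hm x h1
      exact Finset.mem_filter.2 ⟨Finset.mem_univ _, h3.1, by rw [h3.2.1]; exact h2⟩
    · intro x hx y hy hxy
      have h1 := (Finset.mem_filter.1 hx).2.1
      have h2 := (Finset.mem_filter.1 hy).2.1
      rw [← (hm x h1).2.1, ← (hm y h2).2.1, hxy]
    · intro y hy
      obtain ⟨h1, h2⟩ := (Finset.mem_filter.1 hy).2
      have h3 := hm y h1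
      exact ⟨m y, Finset.mem_filter.2 ⟨Finset.mem_univ _, h3.1, by rw [h3.2.1]; exact h2⟩, h3.2.1⟩
  have hsum : W.card + W'.card + U.card = n := by
    have d1 : Disjoint W W' := by
      rw [Finset.disjoint_left]
      intro x hx hx'
      exact absurd (Finset.mem_filter.1 hx).2.2
        (not_lt.2 (Finset.mem_filter.1 hx').2.2.le)
    have d2 : Disjoint (W ∪ W') U := by
      rw [Finset.disjoint_left]
      intro x hx
      rcases Finset.mem_union.1 hx with hx | hx
      · exact (Finset.mem_filter.1 hx).2.1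
      · exact (Finset.mem_filter.1 hx).2.1
    have e : (W ∪ W') ∪ U = Finset.univ := by
      ext x
      simp only [Finset.mem_union, Finset.mem_univ, iff_true]
      by_cases hx : x ∈ U
      · exact Or.inr hx
      · left
        rcases lt_or_gt_of_ne (hm x hx).2.2.1 with h | h
        · exact Or.inl (Finset.mem_filter.2 ⟨Finset.mem_univ _, hx, h⟩)
        · exact Or.inr (Finset.mem_filter.2 ⟨Finset.mem_univ _, hx, h⟩)
    rw [← Finset.card_union_of_disjoint d1, ← Finset.card_union_of_disjoint d2, e,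
      Finset.card_univ, Fintype.card_fin]
  refine ⟨U.image X.y ∪ W.image c, ?_, ?_, ?_⟩
  · have h1 := Finset.card_union_le (U.image X.y) (W.image c)
    have h2 := Finset.card_image_le (s := U) (f := X.y)
    have h3 := Finset.card_image_le (s := W) (f := c)
    omega
  · intro x hx
    rcases Finset.mem_union.1 hx with hx | hx
    · obtain ⟨i, _, rfl⟩ := Finset.mem_image.1 hx
      refine ⟨fun k => ?_, i, X.hy i⟩
      by_cases hk : k = i
      · rw [hk, X.hy]
      · exact (X.hy2 i k hk).le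
    · obtain ⟨i, hi, rfl⟩ := Finset.mem_image.1 hx
      have h1 := hc i (Finset.mem_filter.1 hi).2.1
      exact ⟨h1.1, i, h1.2.1⟩
  · intro i
    by_cases hi : i ∈ U
    · exact ⟨X.y i, Finset.mem_union_left _ (Finset.mem_image_of_mem _ hi), X.hy i⟩
    · have h1 := hm i hi
      rcases lt_or_gt_of_ne h1.2.2.1 with h | h
      · exact ⟨c i, Finset.mem_union_right _ (Finset.mem_image_of_mem _
          (Finset.mem_filter.2 ⟨Finset.mem_univ _, hi, h⟩)), (hc i hi).2.1⟩
      · refine ⟨c (m i), Finset.mem_union_right _ (Finset.mem_image_of_mem _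
          (Finset.mem_filter.2 ⟨Finset.mem_univ _, h1.1, by rw [h1.2.1]; exact h⟩)), ?_⟩
        have h2 := (hc (m i) h1.1).2.2
        rwa [h1.2.1] at h2

end Pool.Agent.X187.LT
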